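import Pool.Agent.Helper43.ExMain2

open Pool.Agent.Helper43

universe u

/-- Over every algebraically closed field of characteristic two there are a smooth projective
threefold `X`, a smooth projective surface `Y` with trivial canonical divisor and a fibration
`X → Y` such that the canonical divisor of `X` is trivial along all fibres but is not
pseudo-effective. -/
theorem Pool.Agent.Results.MP_be60d3_ag.NotPseudoEffective.result
    (k : Type u) [Field k] [IsAlgClosed k] [CharP k 2] :
    ∃ (F : Type u) (_ : Field F) (_ : Algebra k F) (X Y : ProjVar k F),
      X.IsNonsingular 3 ∧ Y.IsNonsingular 2 ∧ ProjVar.IsFibration X Y ∧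
      Y.CanonicalTrivial 2 ∧ ProjVar.CanonicalTrivialOnFibres X Y 3 ∧
      ¬ X.CanonicalPseudoEffective 3 := by
  let F := FractionRing (S4 k)
  have : CharP F 2 := charP_of_injective_algebraMap (algebraMap k F).injective 2
  have g : Gd (fr k F) (ft k F) := gd
  exact ⟨F, inferInstance, inferInstance, three k g, surf k g, three_nonsing g, surf_nonsing g,
    isFibration g, surf_trivial g, three_fibres g, three_not_pseff g⟩
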